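import Mathlib
import Pool.Agent.TH813.Rel1

/-!
# Ax's theorem for one derivation of the complex numbers
-/

set_option autoImplicit false

namespace Pool.Agent.Y562.SX

open Finset Module
open Pool.Agent.TH813

/-- the constants of a derivation -/
noncomputable def cst (D₀ : Derivation ℚ ℂ ℂ) : IntermediateField ℚ ℂ where
  carrier := {w | D₀ w = 0}
  mul_mem' := by
    intro a b ha hb
    rw [Set.mem_ofPred_eq] at ha hb ⊢
    rw [Derivation.leibniz, ha, hb, smul_zero, smul_zero, add_zero]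
  add_mem' := by
    intro a b ha hb
    rw [Set.mem_ofPred_eq] at ha hb ⊢
    rw [map_add, ha, hb, add_zero]
  algebraMap_mem' := fun r => D₀.map_algebraMap r
  inv_mem' := by
    intro a ha
    change D₀ a = 0 at ha
    change D₀ a⁻¹ = 0
    rw [Derivation.leibniz_inv, ha, smul_zero]

theorem mem_cst {D₀ : Derivation ℚ ℂ ℂ} {w : ℂ} : w ∈ cst D₀ ↔ D₀ w = 0 := Iff.rfl

theorem self_mem (D₀ : Derivation ℚ ℂ ℂ) : D₀ ∈ Rel.DF (cst D₀) := fun _ hx => hx

variable {n m : ℕ}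

/-- the evaluation of the forms `dy / y - dx` -/
noncomputable def phi (K : IntermediateField ℚ ℂ) (x y : Fin n → ℂ) : Rel.DF K →ₗ[ℂ] (Fin n → ℂ) where
  toFun D := fun i => D.1 (y i) / y i - D.1 (x i)
  map_add' := fun D D' => by
    funext i
    simp only [Submodule.coe_add, Derivation.add_apply, Pi.add_apply]
    ring
  map_smul' := fun c D => by
    funext i
    simp only [Submodule.coe_smul, Derivation.smul_apply, smul_eq_mul, RingHom.id_apply, Pi.smul_apply]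
    ring

theorem phi_apply (K : IntermediateField ℚ ℂ) (x y : Fin n → ℂ) (D : Rel.DF K) (i : Fin n) :
    phi K x y D i = D.1 (y i) / y i - D.1 (x i) := rfl

/-- the evaluation of derivations -/
noncomputable def evv (K : IntermediateField ℚ ℂ) (v : Fin m → ℂ) : Rel.DF K →ₗ[ℂ] (Fin m → ℂ) where
  toFun D := fun i => D.1 (v i)
  map_add' := fun _ _ => rfl
  map_smul' := fun _ _ => rfl

theorem evv_apply (K : IntermediateField ℚ ℂ) (v : Fin m → ℂ) (D : Rel.DF K) (i : Fin m) :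
    evv K v D i = D.1 (v i) := rfl

theorem rank_lt {V : Type*} [AddCommGroup V] [Module ℂ V] (A : V →ₗ[ℂ] (Fin m → ℂ)) (B : V →ₗ[ℂ] (Fin n → ℂ))
    (hker : ∀ d, A d = 0 → B d = 0) (d₀ : V) (h0 : B d₀ = 0) (h1 : A d₀ ≠ 0) :
    finrank ℂ (LinearMap.range B) < m := by
  have hle : LinearMap.ker A ≤ LinearMap.ker B := fun d hd => hker d hd
  let φ : LinearMap.range A →ₗ[ℂ] (Fin n → ℂ) :=
    ((LinearMap.ker A).liftQ B hle).comp A.quotKerEquivRange.symm.toLinearMap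
  have hφ : ∀ d, φ ⟨A d, ⟨d, rfl⟩⟩ = B d := by
    intro d
    have h2 : A.quotKerEquivRange.symm ⟨A d, ⟨d, rfl⟩⟩ = (LinearMap.ker A).mkQ d := by
      rw [LinearEquiv.symm_apply_eq]
      rfl
    change ((LinearMap.ker A).liftQ B hle) (A.quotKerEquivRange.symm ⟨A d, ⟨d, rfl⟩⟩) = B d
    rw [h2]
    exact Submodule.liftQ_apply _ _ _
  have hrange : LinearMap.range φ = LinearMap.range B := by
    ext w
    constructor
    · rintro ⟨⟨_, ⟨d, rfl⟩⟩, rfl⟩
      exact ⟨d, (hφ d).symm⟩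
    · rintro ⟨d, rfl⟩
      exact ⟨_, hφ d⟩
  have h2 := LinearMap.finrank_range_add_finrank_ker φ
  have h3 : finrank ℂ (LinearMap.range A) ≤ m := by
    have := Submodule.finrank_le (LinearMap.range A)
    rwa [finrank_fin_fun] at this
  have h4 : finrank ℂ (LinearMap.ker φ) ≠ 0 := by
    intro h5
    have h6 : LinearMap.ker φ = ⊥ := Submodule.finrank_eq_zero.1 h5
    have h7 : (⟨A d₀, ⟨d₀, rfl⟩⟩ : LinearMap.range A) ∈ LinearMap.ker φ := by
      rw [LinearMap.mem_ker, hφ, h0]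
    rw [h6, Submodule.mem_bot] at h7
    exact h1 (congrArg Subtype.val h7)
  rw [hrange] at h2
  omega

/-- the relations between the forms `dy / y - dx` -/
def relS (K : IntermediateField ℚ ℂ) (x y : Fin n → ℂ) : Set (Fin n → ℂ) :=
  {c | ∀ D : Rel.DF K, ∑ i, c i * phi K x y D i = 0}

theorem exists_rel (K : IntermediateField ℚ ℂ) (x y : Fin n → ℂ) (h : finrank ℂ (LinearMap.range (phi K x y)) < n) :
    ∃ c ∈ relS K x y, c ≠ 0 := by
  have hlt : LinearMap.range (phi K x y) < ⊤ := by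
    rw [lt_top_iff_ne_top]
    intro h1
    rw [h1, finrank_top, finrank_fin_fun] at h
    exact lt_irrefl _ h
  obtain ⟨f, hf, hle⟩ := Submodule.exists_le_ker_of_lt_top _ hlt
  have hf2 : ∀ w : Fin n → ℂ, f w = ∑ i, f (fun j => if i = j then 1 else 0) * w i := by
    intro w
    rw [LinearMap.pi_apply_eq_sum_univ f w]
    exact sum_congr rfl fun i _ => by rw [smul_eq_mul, mul_comm]
  refine ⟨fun i => f (fun j => if i = j then 1 else 0), fun D => ?_, fun h0 => hf ?_⟩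
  · have h1 : f (phi K x y D) = 0 := hle ⟨D, rfl⟩
    rw [hf2] at h1
    exact h1
  · apply LinearMap.ext
    intro w
    rw [hf2]
    refine sum_eq_zero fun i _ => ?_
    have := congrFun h0 i
    simp only [Pi.zero_apply] at this
    rw [this, zero_mul]

/-- the Lie derivative -/
theorem phi_bracket {D₀ : Derivation ℚ ℂ ℂ} {x y : Fin n → ℂ} (hy : ∀ i, y i ≠ 0)
    (hxy : ∀ i, D₀ (y i) = y i * D₀ (x i)) (D : Rel.DF (cst D₀)) (i : Fin n) :
    D₀ (phi (cst D₀) x y D i) =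
      phi (cst D₀) x y ⟨⁅D₀, D.1⁆, Rel.bracket_mem _ (self_mem D₀) D.2⟩ i := by
  rw [phi_apply, phi_apply]
  simp only [Derivation.commutator_apply]
  rw [hxy, Derivation.leibniz, map_sub, div_eq_mul_inv, Derivation.leibniz, Derivation.leibniz_inv, hxy]
  have := hy i
  simp only [smul_eq_mul]
  field_simp
  ring

theorem relS_stable {D₀ : Derivation ℚ ℂ ℂ} {x y : Fin n → ℂ} (hy : ∀ i, y i ≠ 0)
    (hxy : ∀ i, D₀ (y i) = y i * D₀ (x i)) {c : Fin n → ℂ} (hc : c ∈ relS (cst D₀) x y) :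
    (fun i => D₀ (c i)) ∈ relS (cst D₀) x y := by
  intro D
  have h1 := congrArg D₀ (hc D)
  rw [map_zero, map_sum] at h1
  have h2 := hc ⟨⁅D₀, D.1⁆, Rel.bracket_mem _ (self_mem D₀) D.2⟩
  have h3 : ∑ i, D₀ (c i * phi (cst D₀) x y D i) = ∑ i, c i * phi (cst D₀) x y
      ⟨⁅D₀, D.1⁆, Rel.bracket_mem _ (self_mem D₀) D.2⟩ i + ∑ i, D₀ (c i) * phi (cst D₀) x y D i := by
    rw [← sum_add_distrib]
    refine sum_congr rfl fun i _ => ?_
    rw [Derivation.leibniz, phi_bracket hy hxy, smul_eq_mul, smul_eq_mul, mul_comm (phi _ _ _ _ _) (D₀ _)]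
  rw [h3, h2, zero_add] at h1
  exact h1

/-- a relation with constant coefficients -/
theorem exists_const_rel {D₀ : Derivation ℚ ℂ ℂ} {x y : Fin n → ℂ} (hy : ∀ i, y i ≠ 0)
    (hxy : ∀ i, D₀ (y i) = y i * D₀ (x i)) (h : ∃ c ∈ relS (cst D₀) x y, c ≠ 0) :
    ∃ c ∈ relS (cst D₀) x y, c ≠ 0 ∧ ∀ i, c i ∈ cst D₀ := by
  classical
  let P : ℕ → Prop := fun k => ∃ c ∈ relS (cst D₀) x y, c ≠ 0 ∧ (univ.filter fun i => c i ≠ 0).card = k
  have hP : ∃ k, P k := by
    obtain ⟨c, hc, hc0⟩ := h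
    exact ⟨_, c, hc, hc0, rfl⟩
  obtain ⟨c, hc, hc0, hk⟩ := Nat.find_spec hP
  have hmin : ∀ c' ∈ relS (cst D₀) x y, c' ≠ 0 → Nat.find hP ≤ (univ.filter fun i => c' i ≠ 0).card :=
    fun c' h1 h2 => Nat.find_min' hP ⟨c', h1, h2, rfl⟩
  obtain ⟨i₀, hi₀⟩ := Function.ne_iff.1 hc0
  let c₁ : Fin n → ℂ := fun i => (c i₀)⁻¹ * c i
  have hc₁ : c₁ ∈ relS (cst D₀) x y := by
    intro D
    have h1 : ∑ i, c₁ i * phi (cst D₀) x y D i = (c i₀)⁻¹ * ∑ i, c i * phi (cst D₀) x y D i := by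
      rw [mul_sum]
      exact sum_congr rfl fun i _ => mul_assoc _ _ _
    rw [h1, hc D, mul_zero]
  have hone : c₁ i₀ = 1 := inv_mul_cancel₀ hi₀
  have hc₁0 : c₁ ≠ 0 := by
    intro h1
    have := congrFun h1 i₀
    rw [hone] at this
    exact one_ne_zero this
  refine ⟨c₁, hc₁, hc₁0, ?_⟩
  by_contra hcon
  push Not at hcon
  obtain ⟨j, hj⟩ := hcon
  have h1 := hmin _ (relS_stable hy hxy hc₁) (by
    intro h2
    exact hj (congrFun h2 j))
  rw [← hk] at h1
  refine absurd h1 (not_le.2 (card_lt_card ?_))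
  rw [ssubset_iff_of_subset]
  · refine ⟨i₀, mem_filter.2 ⟨mem_univ _, hi₀⟩, ?_⟩
    rw [mem_filter, not_and, not_not]
    intro _
    rw [hone]
    exact D₀.map_one_eq_zero
  · intro i hi
    rw [mem_filter] at hi ⊢
    refine ⟨mem_univ _, fun h2 => hi.2 ?_⟩
    have h3 : c₁ i = 0 := by
      change (c i₀)⁻¹ * c i = 0
      rw [h2, mul_zero]
    rw [h3]
    exact map_zero _

/-- **Ax's theorem.** Let `D₀` be a derivation of `ℂ` with constants `K`, `D₀ y_i = y_i D₀ x_i`, and let the numbers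
`D₀ x_i` be linearly independent over `ℚ`. If all derivations over `K` which kill `v_1, …, v_m` kill the `x_i` and
the `y_i`, then `m ≥ n + 1`. -/
theorem ax (D₀ : Derivation ℚ ℂ ℂ) (hn : 0 < n) {x y : Fin n → ℂ} (hy : ∀ i, y i ≠ 0)
    (hxy : ∀ i, D₀ (y i) = y i * D₀ (x i)) (hq : ∀ q : Fin n → ℚ, ∑ i, (q i : ℂ) * D₀ (x i) = 0 → q = 0)
    (v : Fin m → ℂ) (hv : ∀ D : Rel.DF (cst D₀), (∀ j, D.1 (v j) = 0) → ∀ i, D.1 (x i) = 0 ∧ D.1 (y i) = 0) :
    n + 1 ≤ m := by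
  by_contra hlt
  have h1 : evv (cst D₀) v ⟨D₀, self_mem D₀⟩ ≠ 0 := by
    intro h2
    have h3 := (hv ⟨D₀, self_mem D₀⟩ (fun j => congrFun h2 j) ⟨0, hn⟩).1
    have h4 := hq (Pi.single ⟨0, hn⟩ 1) (by
      rw [sum_eq_single (⟨0, hn⟩ : Fin n)]
      · rw [Pi.single_eq_same, Rat.cast_one, one_mul]
        exact h3
      · intro b _ hb
        rw [Pi.single_eq_of_ne hb, Rat.cast_zero, zero_mul]
      · intro h; exact absurd (mem_univ _) h)
    have h5 := congrFun h4 ⟨0, hn⟩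
    rw [Pi.single_eq_same] at h5
    exact one_ne_zero h5
  have h2 := rank_lt (evv (cst D₀) v) (phi (cst D₀) x y) (fun D hD => by
    funext i
    have h3 := hv D (fun j => congrFun hD j) i
    rw [phi_apply, h3.1, h3.2, zero_div, sub_zero]
    rfl) ⟨D₀, self_mem D₀⟩ (by
    funext i
    rw [phi_apply]
    change D₀ (y i) / y i - D₀ (x i) = 0
    rw [hxy, mul_div_cancel_left₀ _ (hy i), sub_self]) h1
  obtain ⟨c, hc, hc0, hcK⟩ := exists_const_rel hy hxy (exists_rel (cst D₀) x y (by omega))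
  have hex : ∀ D : Derivation ℚ ℂ ℂ, (∀ w ∈ cst D₀, D w = 0) →
      D (∑ i, c i * x i) = ∑ i, c i * (D (y i) / y i) := by
    intro D hD
    have h3 := hc ⟨D, hD⟩
    rw [map_sum]
    have h4 : ∀ i, D (c i * x i) = c i * D (x i) := by
      intro i
      rw [Derivation.leibniz, hD _ (hcK i), smul_zero, add_zero, smul_eq_mul]
    simp only [h4]
    simp only [phi_apply, mul_sub, sum_sub_distrib] at h3
    exact (sub_eq_zero.1 h3).symm
  have hz := Ros.exact (cst D₀) c y hcK hy _ hex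
  obtain ⟨i₀, hi₀⟩ := Function.ne_iff.1 hc0
  obtain ⟨ψ, hψ⟩ : ∃ ψ : Dual ℚ ℂ, ψ (c i₀) ≠ 0 := by
    by_contra hcon
    push Not at hcon
    exact hi₀ ((forall_dual_apply_eq_zero_iff ℚ _).1 hcon)
  have h5 := Ros.rational (cst D₀) c y hcK hy (fun D hD => by rw [← hex D hD, hz D hD]) ψ D₀ (self_mem D₀)
  have h6 := hq (fun i => ψ (c i)) (by
    rw [← h5]
    refine sum_congr rfl fun i _ => ?_
    rw [hxy, mul_div_cancel_left₀ _ (hy i)])
  exact hψ (congrFun h6 i₀)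

end Pool.Agent.Y562.SX
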