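import Mathlib
import Pool.Agent.TH813.Rel1

/-!
# Derivations at a generic point
-/

set_option autoImplicit false

namespace Pool.Agent.Y562.SX

open Finset Module Polynomial Filter Topology

/-- a point at which countably many functions do not vanish -/
theorem exists_generic {U : Set ℂ} (hU : IsPreconnected U) (hUo : IsOpen U) (hne : U.Nonempty) {ι : Type*}
    [Countable ι] (g : ι → ℂ → ℂ) (hg : ∀ i, AnalyticOnNhd ℂ (g i) U) (h0 : ∀ i, ∃ x ∈ U, g i x ≠ 0) :
    ∃ x ∈ U, ∀ i, g i x ≠ 0 := by
  let O : ι → Set ℂ := fun i => {x | x ∈ U ∧ g i x ≠ 0} ∪ (closure U)ᶜ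
  have hO : ∀ i, IsOpen (O i) := fun i =>
    ((hg i).continuousOn.isOpen_inter_preimage hUo isOpen_compl_singleton).union isClosed_closure.isOpen_compl
  have hd : ∀ i, Dense (O i) := by
    intro i
    rw [dense_iff_inter_open]
    intro W hW hWne
    by_cases h1 : (W ∩ U).Nonempty
    · obtain ⟨y, hyW, hyU⟩ := h1
      by_contra hcon
      obtain ⟨x, hxU, hx⟩ := h0 i
      apply hx
      have h2 : ∀ᶠ t in 𝓝 y, g i t = 0 := by
        filter_upwards [hW.mem_nhds hyW, hUo.mem_nhds hyU] with t htW htU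
        by_contra h3
        exact hcon ⟨t, htW, Or.inl ⟨htU, h3⟩⟩
      exact (hg i).eqOn_zero_of_preconnected_of_eventuallyEq_zero hU hyU h2 hxU
    · obtain ⟨y, hy⟩ := hWne
      refine ⟨y, hy, Or.inr ?_⟩
      intro h2
      rw [mem_closure_iff] at h2
      exact h1 (h2 W hW hy)
  have hdense := dense_iInter_of_isOpen hO hd
  obtain ⟨x, hxU, hx⟩ := hdense.inter_open_nonempty U hUo hne
  refine ⟨x, hxU, fun i => ?_⟩
  have h1 := Set.mem_iInter.1 hx i
  rcases h1 with h2 | h2
  · exact h2.2
  · exact absurd (subset_closure hxU) h2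

/-- a relation of minimal degree -/
theorem exists_sep {A F : Type*} [CommRing A] [IsDomain A] [CharZero A] [Field F] (φ : A →+* F)
    (hφ : Function.Injective φ) (a : F) (h : ∃ q : A[X], q ≠ 0 ∧ q.eval₂ φ a = 0) :
    ∃ q : A[X], q.eval₂ φ a = 0 ∧ q.derivative.eval₂ φ a ≠ 0 := by
  classical
  let P : ℕ → Prop := fun k => ∃ q : A[X], q ≠ 0 ∧ q.eval₂ φ a = 0 ∧ q.natDegree = k
  have hP : ∃ k, P k := by
    obtain ⟨q, h1, h2⟩ := h
    exact ⟨_, q, h1, h2, rfl⟩
  obtain ⟨q, hq0, hq, hk⟩ := Nat.find_spec hP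
  refine ⟨q, hq, fun h1 => ?_⟩
  by_cases h2 : q.natDegree = 0
  · rw [eq_C_of_natDegree_eq_zero h2, eval₂_C, map_eq_zero_iff φ hφ] at hq
    apply hq0
    rw [eq_C_of_natDegree_eq_zero h2, hq, C_0]
  · have h3 : q.derivative ≠ 0 := by
      intro h4
      exact h2 (derivative_eq_zero.1 h4)
    have h5 := Nat.find_min' hP ⟨q.derivative, h3, h1, rfl⟩
    rw [← hk] at h5
    exact absurd (natDegree_derivative_lt h2) (not_lt.2 h5)

variable {τ : Type} (K : IntermediateField ℚ ℂ)

/-- maps which satisfy the rules of a derivation -/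
structure IsDlt (w : τ → ℂ) (Δ : MvPolynomial τ K → ℂ) : Prop where
  C : ∀ a, Δ (MvPolynomial.C a) = 0
  add : ∀ P Q, Δ (P + Q) = Δ P + Δ Q
  mul : ∀ P Q, Δ (P * Q) = MvPolynomial.aeval w P * Δ Q + MvPolynomial.aeval w Q * Δ P

/-- a polynomial in one variable over the polynomials in the variables of `J` as a polynomial -/
noncomputable def conv (J : Set τ) (i : τ) : (MvPolynomial J K)[X] →+* MvPolynomial τ K :=
  Polynomial.eval₂RingHom (MvPolynomial.rename (Subtype.val : J → τ) : MvPolynomial J K →ₐ[K] MvPolynomial τ K).toRingHom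
    (MvPolynomial.X i)

variable {K}

theorem aeval_conv (w : τ → ℂ) (J : Set τ) (i : τ) (q : (MvPolynomial J K)[X]) :
    MvPolynomial.aeval w (conv K J i q) =
      q.eval₂ (MvPolynomial.aeval (fun j : J => w j) : MvPolynomial J K →ₐ[K] ℂ).toRingHom (w i) := by
  change (MvPolynomial.aeval w : MvPolynomial τ K →ₐ[K] ℂ).toRingHom (Polynomial.eval₂ _ _ q) = _
  rw [Polynomial.hom_eval₂]
  congr 1
  · apply MvPolynomial.ringHom_ext
    · intro a
      simp
    · intro j
      simp
  · simp

theorem IsDlt.rename {w : τ → ℂ} {Δ : MvPolynomial τ K → ℂ} (h : IsDlt K w Δ) {J : Set τ}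
    (hJ : ∀ j ∈ J, Δ (MvPolynomial.X j) = 0) (b : MvPolynomial J K) :
    Δ (MvPolynomial.rename (Subtype.val : J → τ) b) = 0 := by
  induction b using MvPolynomial.induction_on with
  | C a => rw [MvPolynomial.rename_C, h.C]
  | add p q hp hq => rw [map_add, h.add, hp, hq, add_zero]
  | mul_X p j hp => rw [map_mul, h.mul, hp, MvPolynomial.rename_X, hJ j j.2, mul_zero, mul_zero, add_zero]

theorem IsDlt.conv {w : τ → ℂ} {Δ : MvPolynomial τ K → ℂ} (h : IsDlt K w Δ) {J : Set τ}
    (hJ : ∀ j ∈ J, Δ (MvPolynomial.X j) = 0) (i : τ) (q : (MvPolynomial J K)[X]) :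
    Δ (conv K J i q) = MvPolynomial.aeval w (SX.conv K J i q.derivative) * Δ (MvPolynomial.X i) := by
  have hC : ∀ a : MvPolynomial J K, SX.conv K J i (Polynomial.C a) =
      MvPolynomial.rename (Subtype.val : J → τ) a := by
    intro a
    change Polynomial.eval₂ _ _ (Polynomial.C a) = _
    rw [Polynomial.eval₂_C]
    rfl
  have hX : SX.conv K J i X = MvPolynomial.X i := by
    change Polynomial.eval₂ _ _ X = _
    rw [Polynomial.eval₂_X]
  induction q using Polynomial.induction_on with
  | C a =>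
    rw [hC, h.rename hJ, derivative_C, map_zero, map_zero, zero_mul]
  | add p q hp hq =>
    rw [map_add, h.add, hp, hq, derivative_add, map_add, map_add, add_mul]
  | monomial n a ih =>
    have e : (Polynomial.C a * X ^ (n + 1) : (MvPolynomial J K)[X]) = Polynomial.C a * X ^ n * X := by ring
    rw [e]
    generalize Polynomial.C a * X ^ n = r at ih ⊢
    have e2 : derivative (r * X) = derivative r * X + r := by rw [derivative_mul, derivative_X, mul_one]
    rw [e2, map_mul, h.mul, ih, hX, map_add, map_add, map_mul, map_mul, hX]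
    ring

theorem countable_mv [Finite τ] (hK : (K : Set ℂ).Countable) : Countable (MvPolynomial τ K) := by
  have h1 : Countable K := hK.to_subtype
  rw [← Cardinal.mk_le_aleph0_iff]
  refine (MvPolynomial.cardinalMk_le_max).trans ?_
  rw [max_le_iff, max_le_iff]
  exact ⟨⟨Cardinal.mk_le_aleph0_iff.2 h1, Cardinal.mk_le_aleph0_iff.2 inferInstance⟩, le_refl _⟩

theorem an_aeval {U : Set ℂ} {v : τ → ℂ → ℂ} (hv : ∀ i, AnalyticOnNhd ℂ (v i) U) (P : MvPolynomial τ K) :
    AnalyticOnNhd ℂ (fun x => MvPolynomial.aeval (fun i => v i x) P) U := by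
  intro x hx
  induction P using MvPolynomial.induction_on with
  | C a =>
    simp only [MvPolynomial.aeval_C]
    exact analyticAt_const
  | add p q hp hq =>
    simp only [map_add]
    exact hp.add hq
  | mul_X p i hp =>
    simp only [map_mul, MvPolynomial.aeval_X]
    exact hp.mul (hv i x hx)

/-- the difference of two derivations -/
theorem isDlt {t : ℂ} {v : τ → ℂ → ℂ} (hv : ∀ i, AnalyticAt ℂ (v i) t) {D : Derivation ℚ ℂ ℂ}
    (hD : ∀ w ∈ K, D w = 0) :
    IsDlt K (fun i => v i t) (fun P => deriv (fun x => MvPolynomial.aeval (fun i => v i x) P) t -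
      D (MvPolynomial.aeval (fun i => v i t) P)) := by
  have hd : ∀ P : MvPolynomial τ K, DifferentiableAt ℂ (fun x => MvPolynomial.aeval (fun i => v i x) P) t := by
    intro P
    induction P using MvPolynomial.induction_on with
    | C a =>
      simp only [MvPolynomial.aeval_C]
      exact differentiableAt_const _
    | add p q hp hq =>
      simp only [map_add]
      exact hp.add hq
    | mul_X p i hp =>
      simp only [map_mul, MvPolynomial.aeval_X]
      exact hp.mul (hv i).differentiableAt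
  refine ⟨fun a => ?_, fun P Q => ?_, fun P Q => ?_⟩
  · simp only [MvPolynomial.aeval_C]
    rw [deriv_const, zero_sub, neg_eq_zero]
    exact hD _ a.2
  · simp only [map_add]
    rw [deriv_fun_add (hd P) (hd Q)]
    ring
  · simp only [map_mul]
    rw [deriv_fun_mul (hd P) (hd Q), Derivation.leibniz, smul_eq_mul, smul_eq_mul]
    ring

/-- a generic point and a derivation of the numbers which agrees with the derivation of the functions -/
theorem exists_point [Finite τ] {U : Set ℂ} (hU : IsPreconnected U) (hUo : IsOpen U) (hne : U.Nonempty)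
    {v : τ → ℂ → ℂ} (hv : ∀ i, AnalyticOnNhd ℂ (v i) U) (hK : (K : Set ℂ).Countable) {ι : Type} [Countable ι]
    (g : ι → ℂ → ℂ) (hg : ∀ i, AnalyticOnNhd ℂ (g i) U) (h0 : ∀ i, ∃ x ∈ U, g i x ≠ 0) :
    ∃ t ∈ U, (∀ i, g i t ≠ 0) ∧ ∃ D : Derivation ℚ ℂ ℂ, (∀ w ∈ K, D w = 0) ∧ ∀ i, D (v i t) = deriv (v i) t := by
  classical
  have hc : Countable (MvPolynomial τ K) := countable_mv hK
  let ι' := {P : MvPolynomial τ K // ∃ x ∈ U, MvPolynomial.aeval (fun i => v i x) P ≠ 0}
  obtain ⟨t, htU, ht⟩ := exists_generic hU hUo hne (ι := ι ⊕ ι')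
    (Sum.elim g (fun P x => MvPolynomial.aeval (fun i => v i x) P.1)) (by
      rintro (i | P)
      · exact hg i
      · exact an_aeval hv P.1) (by
      rintro (i | P)
      · exact h0 i
      · exact P.2)
  have hgen : ∀ P : MvPolynomial τ K, MvPolynomial.aeval (fun i => v i t) P = 0 →
      ∀ x ∈ U, MvPolynomial.aeval (fun i => v i x) P = 0 := by
    intro P hP
    by_contra hcon
    push Not at hcon
    exact ht (Sum.inr ⟨P, hcon⟩) hP
  refine ⟨t, htU, fun i => ht (Sum.inl i), ?_⟩
  -- a transcendence basis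
  obtain ⟨J, hJ⟩ : ∃ J : Set τ, Maximal (fun J => AlgebraicIndepOn K (fun i => v i t) J) J := by
    have hfin : ({J : Set τ | AlgebraicIndepOn K (fun i => v i t) J}).Finite := Set.toFinite _
    obtain ⟨J, hJ⟩ := hfin.exists_maximal ⟨∅, by
      rw [Set.mem_ofPred_eq]
      exact algebraicIndependent_empty_type_iff.2 (algebraMap K ℂ).injective⟩
    exact ⟨J, hJ⟩
  have hind : AlgebraicIndependent K (fun j : J => v j t) := hJ.1
  have : CharZero K := charZero_of_injective_algebraMap (algebraMap ℚ K).injective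
  obtain ⟨D, hD⟩ := Pool.Agent.H135R2.VS.exists_der hind (fun j => deriv (v j) t)
  have hDK : ∀ w ∈ K, (D.restrictScalars ℚ) w = 0 := fun w hw => D.map_algebraMap (⟨w, hw⟩ : K)
  refine ⟨D.restrictScalars ℚ, hDK, fun i => ?_⟩
  have hΔ := isDlt (K := K) (v := v) (fun i => hv i t htU) hDK
  have hΔJ : ∀ j ∈ J, deriv (fun x => MvPolynomial.aeval (fun i => v i x) (MvPolynomial.X j : MvPolynomial τ K)) t -
      (D.restrictScalars ℚ) (MvPolynomial.aeval (fun i => v i t) (MvPolynomial.X j : MvPolynomial τ K)) = 0 := by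
    intro j hj
    simp only [MvPolynomial.aeval_X]
    rw [sub_eq_zero]
    exact (hD ⟨j, hj⟩).symm
  by_cases hi : i ∈ J
  · exact hD ⟨i, hi⟩
  · have h1 : ¬ AlgebraicIndepOn K (fun i => v i t) (insert i J) := by
      intro h2
      exact hi (hJ.2 h2 (Set.subset_insert i J) (Set.mem_insert i J))
    rw [AlgebraicIndepOn.insert_iff hi] at h1
    have h2 : IsAlgebraic (Algebra.adjoin K ((fun i => v i t) '' J)) (v i t) := by
      by_contra h3
      exact h1 ⟨hJ.1, h3⟩
    let φ : MvPolynomial J K →+* ℂ :=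
      (MvPolynomial.aeval (fun j : J => v j t) : MvPolynomial J K →ₐ[K] ℂ).toRingHom
    have hφ : Function.Injective φ := hind
    obtain ⟨q, hq, hq'⟩ := exists_sep φ hφ (v i t) (by
      obtain ⟨p, hp0, hp⟩ := h2
      have hsurj : ∀ a : Algebra.adjoin K ((fun i => v i t) '' J), ∃ b : MvPolynomial J K, φ b = a := by
        rintro ⟨a, ha⟩
        rw [Set.image_eq_range, Algebra.adjoin_range_eq_range_aeval] at ha
        obtain ⟨b, hb⟩ := ha
        exact ⟨b, hb⟩
      choose s hs using hsurj
      refine ⟨∑ k ∈ range (p.natDegree + 1), C (s (p.coeff k)) * X ^ k, fun h5 => hp0 ?_, ?_⟩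
      · ext k
        by_cases hk : k ≤ p.natDegree
        · have h6 := congrArg (fun r => φ (Polynomial.coeff r k)) h5
          simp only [finsetSum_coeff, coeff_C_mul, coeff_X_pow, mul_ite, mul_one, mul_zero, coeff_zero, map_zero] at h6
          rw [Finset.sum_ite_eq, if_pos (mem_range.2 (Nat.lt_succ_of_le hk)), hs] at h6
          simpa using h6
        · rw [coeff_eq_zero_of_natDegree_lt (not_le.1 hk), coeff_zero]
      · rw [eval₂_finsetSum]
        simp only [eval₂_mul, eval₂_C, eval₂_X_pow, hs]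
        rw [aeval_eq_sum_range] at hp
        rw [← hp]
        exact sum_congr rfl fun k _ => by rw [Algebra.smul_def]; rfl)
    have h3 := hΔ.conv hΔJ i q
    have h4 : MvPolynomial.aeval (fun i => v i t) (conv K J i q) = 0 := by
      rw [aeval_conv]
      exact hq
    have h5 := hgen _ h4
    have h6 : deriv (fun x => MvPolynomial.aeval (fun i => v i x) (conv K J i q)) t = 0 := by
      have h7 : (fun x => MvPolynomial.aeval (fun i => v i x) (conv K J i q)) =ᶠ[𝓝 t] fun _ => 0 := by
        filter_upwards [hUo.mem_nhds htU] with x hx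
        exact h5 x hx
      rw [h7.deriv_eq, deriv_const]
    rw [h4, h6, map_zero, sub_zero] at h3
    rw [eq_comm, mul_eq_zero] at h3
    rcases h3 with h7 | h7
    · rw [aeval_conv] at h7
      exact absurd h7 hq'
    · simp only [MvPolynomial.aeval_X] at h7
      exact (sub_eq_zero.1 h7).symm

end Pool.Agent.Y562.SX
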