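import Mathlib
import Pool.Agent.Y562.SX.Ax
import Pool.Agent.Y562.SX.Gen
import Pool.Agent.Y890.SP.Ana

/-!
# Ax's theorem for analytic functions of one variable
-/

set_option autoImplicit false

namespace Pool.Agent.Y562.SX

open Finset Module Polynomial Filter Topology
open Pool.Agent.Y890.SP

theorem countable_adjoinC {S : Set ℂ} (hS : S.Countable) :
    ((IntermediateField.adjoin ℚ S : IntermediateField ℚ ℂ) : Set ℂ).Countable := by
  have h1 := IntermediateField.cardinalMk_adjoin_le ℚ S
  have h2 : Cardinal.mk (IntermediateField.adjoin ℚ S) ≤ Cardinal.aleph0 := by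
    refine h1.trans ?_
    rw [max_le_iff, max_le_iff]
    exact ⟨⟨Cardinal.mk_le_aleph0, Cardinal.mk_le_aleph0_iff.2 hS.to_subtype⟩, le_refl _⟩
  have h3 : Countable (IntermediateField.adjoin ℚ S) := Cardinal.mk_le_aleph0_iff.1 h2
  exact Set.countable_coe_iff.1 h3

/-- a derivation which kills the coefficients -/
theorem der_eval₂ {A : Type*} [CommRing A] (e : A →+* ℂ) (D : Derivation ℚ ℂ ℂ) (a : ℂ) (R : A[X])
    (h : ∀ k, D (e (R.coeff k)) = 0) : D (R.eval₂ e a) = R.derivative.eval₂ e a * D a := by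
  have h1 : R.eval₂ e a = (R.map e).eval a := (eval_map _ _).symm
  have h2 : R.derivative.eval₂ e a = (R.map e).derivative.eval a := by
    rw [derivative_map, eval_map]
  rw [h1, h2]
  set p := R.map e with hp
  have h3 : ∀ k, D (p.coeff k) = 0 := fun k => by rw [hp, coeff_map]; exact h k
  rw [eval_eq_sum_range, map_sum, derivative_eval, Polynomial.sum_over_range _ (fun n => by simp), sum_mul]
  refine sum_congr rfl fun k _ => ?_
  rw [Derivation.leibniz, h3 k, smul_zero, add_zero, Derivation.leibniz_pow]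
  simp only [smul_eq_mul, nsmul_eq_mul]
  ring

/-- the values of polynomials lie in the field generated by the coefficients, the point and the functions -/
theorem evF_mem {σ : Type} (f : σ → ℂ → ℂ) (t : ℂ) (S : IntermediateField ℚ ℂ) (ht : t ∈ S) (hf : ∀ i, f i t ∈ S)
    (b : MvPolynomial σ ℂ[X]) (hb : ∀ d l, (b.coeff d).coeff l ∈ S) : evF f t b ∈ S := by
  unfold evF
  rw [MvPolynomial.eval₂_eq]
  refine S.sum_mem fun d _ => ?_
  refine S.mul_mem ?_ (S.prod_mem fun i _ => pow_mem (hf i) (d i))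
  rw [coe_evalRingHom, eval_eq_sum_range]
  exact S.sum_mem fun l _ => S.mul_mem (hb d l) (pow_mem ht l)

theorem evF_res {σ : Type} (f : σ → ℂ → ℂ) (I : Set σ) (t : ℂ) (b : MvPolynomial I ℂ[X]) :
    evF (fun i : I => f i) t b = evF f t (MvPolynomial.rename Subtype.val b) := by
  unfold evF
  rw [MvPolynomial.eval₂_rename]
  rfl

/-- **Ax's theorem for analytic functions of one variable.** -/
theorem fun_ax {n : ℕ} (hn : 0 < n) {U : Set ℂ} (hU : IsPreconnected U) (hUo : IsOpen U) (hne : U.Nonempty)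
    {z : Fin n → ℂ → ℂ} (hz : ∀ i, AnalyticOnNhd ℂ (z i) U)
    (hq : ∀ q : Fin n → ℚ, (∃ c : ℂ, ∀ x ∈ U, ∑ i, (q i : ℂ) * z i x = c) → q = 0)
    {L : Type} [Field L] [Algebra ℂ[X] L] [FaithfulSMul ℂ[X] L] (F : Fin n ⊕ Fin n → L)
    (hF : ∀ p : MvPolynomial (Fin n ⊕ Fin n) ℂ[X], MvPolynomial.aeval F p = 0 ↔
      ∀ x ∈ U, evF (Sum.elim z fun i x => Complex.exp (z i x)) x p = 0) :
    ∃ I : Set (Fin n ⊕ Fin n), AlgebraicIndepOn ℂ[X] F I ∧ n ≤ I.ncard := by
  classical
  set f : Fin n ⊕ Fin n → ℂ → ℂ := Sum.elim z fun i x => Complex.exp (z i x) with hf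
  have hfa : ∀ i, AnalyticOnNhd ℂ (f i) U := by
    rintro (i | i)
    · exact hz i
    · exact fun x hx => (hz i x hx).cexp
  -- a transcendence basis
  obtain ⟨I, hI⟩ : ∃ I : Set (Fin n ⊕ Fin n), Maximal (fun I => AlgebraicIndepOn ℂ[X] F I) I := by
    have hfin : ({I : Set (Fin n ⊕ Fin n) | AlgebraicIndepOn ℂ[X] F I}).Finite := Set.toFinite _
    obtain ⟨I, hI⟩ := hfin.exists_maximal ⟨∅, by
      rw [Set.mem_ofPred_eq]
      exact algebraicIndependent_empty_type_iff.2 (FaithfulSMul.algebraMap_injective ℂ[X] L)⟩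
    exact ⟨I, hI⟩
  have hind : AlgebraicIndependent ℂ[X] (fun j : I => F j) := hI.1
  refine ⟨I, hI.1, ?_⟩
  have : CharZero (MvPolynomial I ℂ[X]) :=
    charZero_of_injective_algebraMap (MvPolynomial.C_injective I ℂ[X])
  let φ : MvPolynomial I ℂ[X] →+* L :=
    (MvPolynomial.aeval (fun j : I => F j) : MvPolynomial I ℂ[X] →ₐ[ℂ[X]] L).toRingHom
  have hφ : Function.Injective φ := hind
  -- relations
  have hrel : ∀ i, ∃ R : (MvPolynomial I ℂ[X])[X], R.eval₂ φ (F i) = 0 ∧ R.derivative.eval₂ φ (F i) ≠ 0 := by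
    intro i
    apply exists_sep φ hφ
    by_cases hi : i ∈ I
    · refine ⟨X - C (MvPolynomial.X ⟨i, hi⟩), X_sub_C_ne_zero _, ?_⟩
      rw [eval₂_sub, eval₂_X, eval₂_C]
      have : φ (MvPolynomial.X ⟨i, hi⟩) = F i := MvPolynomial.aeval_X _ _
      rw [this, sub_self]
    · have h1 : ¬ AlgebraicIndepOn ℂ[X] F (insert i I) := by
        intro h2
        exact hi (hI.2 h2 (Set.subset_insert i I) (Set.mem_insert i I))
      rw [AlgebraicIndepOn.insert_iff hi] at h1
      have h2 : IsAlgebraic (Algebra.adjoin ℂ[X] (F '' I)) (F i) := by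
        by_contra h3
        exact h1 ⟨hI.1, h3⟩
      obtain ⟨p, hp0, hp⟩ := h2
      have hsurj : ∀ a : Algebra.adjoin ℂ[X] (F '' I), ∃ b : MvPolynomial I ℂ[X], φ b = a := by
        rintro ⟨a, ha⟩
        rw [Set.image_eq_range, Algebra.adjoin_range_eq_range_aeval] at ha
        obtain ⟨b, hb⟩ := ha
        exact ⟨b, hb⟩
      choose s hs using hsurj
      refine ⟨∑ k ∈ range (p.natDegree + 1), C (s (p.coeff k)) * X ^ k, fun h5 => hp0 ?_, ?_⟩
      · ext k
        by_cases hk : k ≤ p.natDegree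
        · have h6 := congrArg (fun r => φ (Polynomial.coeff r k)) h5
          simp only [finsetSum_coeff, coeff_C_mul, coeff_X_pow, mul_ite, mul_one, mul_zero, coeff_zero, map_zero] at h6
          rw [Finset.sum_ite_eq, if_pos (mem_range.2 (Nat.lt_succ_of_le hk)), hs] at h6
          simpa using h6
        · rw [coeff_eq_zero_of_natDegree_lt (not_le.1 hk), coeff_zero]
      · rw [eval₂_finsetSum]
        simp only [eval₂_mul, eval₂_C, eval₂_X_pow, hs]
        rw [aeval_eq_sum_range] at hp
        rw [← hp]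
        exact sum_congr rfl fun k _ => by rw [Algebra.smul_def]; rfl
  choose R hR hR' using hrel
  -- from the field to functions
  let e : ℂ → MvPolynomial I ℂ[X] →+* ℂ := fun x => MvPolynomial.eval₂Hom (Polynomial.evalRingHom x) (fun i : I => f i x)
  let cv : Fin n ⊕ Fin n → (MvPolynomial I ℂ[X])[X] → MvPolynomial (Fin n ⊕ Fin n) ℂ[X] := fun i r =>
    r.eval₂ (MvPolynomial.rename (Subtype.val : I → Fin n ⊕ Fin n) :
      MvPolynomial I ℂ[X] →ₐ[ℂ[X]] MvPolynomial (Fin n ⊕ Fin n) ℂ[X]).toRingHom (MvPolynomial.X i)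
  have hcv1 : ∀ i r, MvPolynomial.aeval F (cv i r) = r.eval₂ φ (F i) := by
    intro i r
    change (MvPolynomial.aeval F : MvPolynomial (Fin n ⊕ Fin n) ℂ[X] →ₐ[ℂ[X]] L).toRingHom (Polynomial.eval₂ _ _ r) = _
    rw [Polynomial.hom_eval₂]
    congr 1
    · apply MvPolynomial.ringHom_ext
      · intro a
        simp [φ]
      · intro j
        simp [φ]
    · simp
  have hcv2 : ∀ i r x, evF f x (cv i r) = r.eval₂ (e x) (f i x) := by
    intro i r x
    change (MvPolynomial.eval₂Hom (Polynomial.evalRingHom x) (fun i => f i x)) (Polynomial.eval₂ _ _ r) = _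
    rw [Polynomial.hom_eval₂]
    congr 1
    · apply MvPolynomial.ringHom_ext
      · intro a
        simp [e]
      · intro j
        simp [e]
    · simp
  have hfun : ∀ i, ∀ x ∈ U, (R i).eval₂ (e x) (f i x) = 0 := by
    intro i x hx
    have h1 := hR i
    rw [← hcv1, hF] at h1
    rw [← hcv2]
    exact h1 x hx
  have hfun' : ∀ i, ∃ x ∈ U, (R i).derivative.eval₂ (e x) (f i x) ≠ 0 := by
    intro i
    have h1 := hR' i
    rw [← hcv1, Ne, hF] at h1
    push Not at h1
    obtain ⟨x, hx, h2⟩ := h1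
    exact ⟨x, hx, by rw [← hcv2]; exact h2⟩
  -- the field of coefficients
  let T : Set ℂ := Set.range fun p : (Fin n ⊕ Fin n) × ℕ × (I →₀ ℕ) × ℕ =>
    (((R p.1).coeff p.2.1).coeff p.2.2.1).coeff p.2.2.2
  have hT : T.Countable := Set.countable_range _
  let K : IntermediateField ℚ ℂ := IntermediateField.adjoin ℚ T
  have hK : (K : Set ℂ).Countable := countable_adjoinC hT
  have hTK : ∀ i k d l, (((R i).coeff k).coeff d).coeff l ∈ K := fun i k d l =>
    IntermediateField.subset_adjoin ℚ T ⟨(i, k, d, l), rfl⟩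
  -- the generic point
  let v : Option (Fin n ⊕ Fin n) → ℂ → ℂ := fun o => o.elim (fun x => x) f
  have hv : ∀ o, AnalyticOnNhd ℂ (v o) U := by
    rintro (_ | i)
    · exact fun x _ => analyticAt_id
    · exact hfa i
  obtain ⟨t, htU, ht, D, hDK, hD⟩ := exists_point (K := K) hU hUo hne hv hK
    (ι := (Fin n ⊕ Fin n) ⊕ {q : Fin n → ℚ // q ≠ 0})
    (Sum.elim (fun i x => (R i).derivative.eval₂ (e x) (f i x)) (fun q x => ∑ i, (q.1 i : ℂ) * deriv (z i) x)) (by
      rintro (i | q)
      · change AnalyticOnNhd ℂ (fun x => (R i).derivative.eval₂ (e x) (f i x)) U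
        simp only [← hcv2]
        exact evF_an hfa _
      · change AnalyticOnNhd ℂ (fun x => ∑ i, (q.1 i : ℂ) * deriv (z i) x) U
        intro x hx
        exact Finset.analyticAt_fun_sum _ fun i _ => analyticAt_const.mul ((hz i x hx).deriv)) (by
      rintro (i | q)
      · exact hfun' i
      · by_contra hcon
        push Not at hcon
        apply q.2
        apply hq
        obtain ⟨x₀, hx₀⟩ := hne
        refine ⟨∑ i, (q.1 i : ℂ) * z i x₀, fun x hx => ?_⟩
        have hd : ∀ y ∈ U, HasDerivAt (fun y => ∑ i, (q.1 i : ℂ) * z i y) (∑ i, (q.1 i : ℂ) * deriv (z i) y) y := by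
          intro y hy
          exact HasDerivAt.fun_sum fun i _ => ((hz i y hy).differentiableAt.hasDerivAt).const_mul _
        refine hUo.is_const_of_deriv_eq_zero hU (f := fun y => ∑ i, (q.1 i : ℂ) * z i y)
          (fun y hy => (hd y hy).differentiableAt.differentiableWithinAt) ?_ hx hx₀
        intro y hy
        rw [(hd y hy).deriv]
        exact hcon y hy)
  -- application of Ax's theorem
  have hDz : ∀ i, D (z i t) = deriv (z i) t := fun i => hD (some (Sum.inl i))
  have hDe : ∀ i, D (Complex.exp (z i t)) = Complex.exp (z i t) * D (z i t) := by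
    intro i
    have h1 := hD (some (Sum.inr i))
    change D (Complex.exp (z i t)) = deriv (fun x => Complex.exp (z i x)) t at h1
    rw [h1, hDz]
    exact ((hz i t htU).differentiableAt.hasDerivAt.cexp).deriv
  have hfinI : Finite I := inferInstance
  let eI : Fin I.ncard ≃ I := (Finite.equivFinOfCardEq (Nat.card_coe_set_eq I)).symm
  have h1 := ax D hn (x := fun i => z i t) (y := fun i => Complex.exp (z i t)) (fun i => Complex.exp_ne_zero _) hDe
    (fun q h0 => by
      by_contra hq0
      refine ht (Sum.inr ⟨q, hq0⟩) ?_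
      change ∑ i, (q i : ℂ) * deriv (z i) t = 0
      rw [← h0]
      exact sum_congr rfl fun i _ => by rw [hDz])
    (m := I.ncard + 1) (Fin.cons t fun j => f (eI j) t) (by
      intro D' hD'
      have hD't : D'.1 t = 0 := hD' 0
      have hD'I : ∀ j : I, D'.1 (f j t) = 0 := by
        intro j
        have h2 := hD' (Fin.succ (eI.symm j))
        rw [Fin.cons_succ, Equiv.apply_symm_apply] at h2
        exact h2
      have hall : ∀ i, D'.1 (f i t) = 0 := by
        intro i
        have h2 := der_eval₂ (e t) D'.1 (f i t) (R i) (by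
          intro k
          refine evF_mem (fun i : I => f i) t (cst D'.1) hD't (fun j => hD'I j) _ ?_
          intro d l
          exact D'.2 _ (hDK _ (hTK i k d l)))
        rw [hfun i t htU, map_zero, eq_comm, mul_eq_zero] at h2
        rcases h2 with h3 | h3
        · exact absurd h3 (ht (Sum.inl i))
        · exact h3
      exact fun i => ⟨hall (Sum.inl i), hall (Sum.inr i)⟩)
  omega

end Pool.Agent.Y562.SX
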