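import Pool.Agent.Y562.SX.Fun
import Pool.Agent.Y890.SP.Omega

/-!
# Schanuel's inequality, up to slowly growing complexity, at almost all algebraic points of analytic curves
-/

set_option autoImplicit false

namespace Pool.Agent.Y562.SX

open Finset NumberField Filter
open Pool.Agent.Y890.SP Pool.Agent.Y124 Pool.Agent.Y120

/-- several families of functions; tuples over all number fields of degree at most `m` -/
theorem nfJ (m n : ℕ) {κ : Type} [Fintype κ] [DecidableEq κ] (v : Fin n → ℂ → κ → ℂ) (L : Fin n → Set ℂ)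
    (hv : ∀ g j, OneV g (fun R T => {t | t ∈ L j ∧ Pt R T t}) (v j))
    (h : Type) [Fintype h] [DecidableEq h] (d : ℕ) (A ε : ℝ) (hε : 0 < ε) :
    ∃ B C T₀ : ℝ, 0 ≤ C ∧ 2 ≤ T₀ ∧ ∀ (K : Type) [Field K] [NumberField K], Module.finrank ℚ K ≤ m → ∀ (io : K →+* ℂ)
      (ξ : h → ℂ) (T : ℝ), T₀ ≤ T → ∀ E : Set (Fin n → K),
      (∀ t ∈ E, (∀ j, HtLe K T (t j) ∧ io (t j) ∈ L j) ∧
        RelK K io ξ (fun e : Fin n → κ → Fin (d + 1) => mgR v (fun j => io (t j)) e) (T ^ A) (T ^ (-B))) →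
      E.Finite ∧ (E.ncard : ℝ) ≤ C * T ^ ε *
        ∑ j, ∏ i, (if i = j then (1 : ℝ) else ({x : K | HtLe K T x ∧ io x ∈ L i}.ncard : ℝ)) := by
  classical
  have hg := fun g : ℕ => multiR g n (fun j R T => {t | t ∈ L j ∧ Pt R T t}) v (fun j => hv g j) h d A ε hε
  choose B C T2 hB hC hT2 H using hg
  refine ⟨∑ g ∈ range m, B g, ∑ g ∈ range m, C g, 2 + ∑ g ∈ range m, T2 g, ?_, ?_, ?_⟩
  · exact Finset.sum_nonneg fun g _ => (hC g).le
  · have : 0 ≤ ∑ g ∈ range m, T2 g := Finset.sum_nonneg fun g _ => by linarith [hT2 g]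
    linarith
  intro K _ _ hm io ξ T hT E hE
  set g := gK K with hg
  have hgm : g ∈ range m := Finset.mem_range.2 (gK_lt K hm)
  have hTT : T2 g ≤ T := by
    have h1 := Finset.single_le_sum (f := T2) (fun g _ => by linarith [hT2 g]) hgm
    linarith
  have hBB : B g ≤ ∑ g ∈ range m, B g := Finset.single_le_sum (f := B) (fun g _ => hB g) hgm
  have hCC : C g ≤ ∑ g ∈ range m, C g := Finset.single_le_sum (f := C) (fun g _ => (hC g).le) hgm
  have hT1 : 1 ≤ T := by linarith [hT2 g]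
  have hXf : ∀ j, {x : K | HtLe K T x ∧ io x ∈ L j}.Finite := fun j => (HtLe_fin K T).subset fun x hx => hx.1
  let X : Fin n → Finset K := fun j => (hXf j).toFinset
  have hEsub : E ⊆ (Fintype.piFinset (fun j : Fin n => X j) : Finset (Fin n → K)) := by
    intro t ht
    rw [Finset.mem_coe, Fintype.mem_piFinset]
    intro j
    exact (hXf j).mem_toFinset.2 ((hE t ht).1 j)
  have hEf : E.Finite := (Finset.finite_toSet _).subset hEsub
  refine ⟨hEf, ?_⟩
  set Y : Finset (Fin n → ℂ) := hEf.toFinset.image fun t j => io (t j) with hY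
  have hYc : Y.card = E.ncard := by
    rw [hY, Finset.card_image_of_injective, Set.ncard_eq_toFinset_card _ hEf]
    intro t t' htt
    funext j
    exact io.injective (congrFun htt j)
  have h1 := H g T hTT (RK K io) (RK_norm K io) ξ (fun j => (X j).image io) (by
    intro j x hx
    obtain ⟨y, hy, rfl⟩ := Finset.mem_image.1 hx
    have hy' := (hXf j).mem_toFinset.1 hy
    exact ⟨hy'.2, Pt_of_HtLe K io hy'.1⟩) Y (by
    intro y hy
    obtain ⟨t, ht, rfl⟩ := Finset.mem_image.1 hy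
    rw [Fintype.mem_piFinset]
    intro j
    exact Finset.mem_image_of_mem _ ((hXf j).mem_toFinset.2 ((hE t (hEf.mem_toFinset.1 ht)).1 j))) (by
    intro y hy
    obtain ⟨t, ht, rfl⟩ := Finset.mem_image.1 hy
    refine RelR_mono (Real.rpow_le_rpow_of_exponent_le hT1 (neg_le_neg hBB)) ?_
    exact RelR_of_RelK K io ξ _ _ _ (hE t (hEf.mem_toFinset.1 ht)).2)
  rw [MgR, hYc] at h1
  have h2 : ∀ i, (((X i).image io).card : ℝ) = ({x : K | HtLe K T x ∧ io x ∈ L i}.ncard : ℝ) := by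
    intro i
    rw [Finset.card_image_of_injective _ io.injective, Set.ncard_eq_toFinset_card _ (hXf i)]
  simp only [h2] at h1
  refine h1.trans ?_
  have hTε : 0 ≤ T ^ ε := (Real.rpow_pos_of_pos (by linarith) _).le
  refine mul_le_mul_of_nonneg_right (mul_le_mul_of_nonneg_right hCC hTε) ?_
  refine Finset.sum_nonneg fun j _ => Finset.prod_nonneg fun i _ => ?_
  split_ifs
  · exact zero_le_one
  · exact Nat.cast_nonneg _

theorem relK_of_polyJ {h κ : Type} [Fintype h] [Fintype κ] [DecidableEq κ] {n d : ℕ} (K : Type) [Field K]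
    [NumberField K] (io : K →+* ℂ) (ξ : h → ℂ) (v : Fin n → ℂ → κ → ℂ) (t : Fin n → ℂ) (H δ : ℝ)
    (P : MvPolynomial (Fin n × κ) ℂ) (hd : ∀ x, P.degreeOf x ≤ d)
    (hP : ∀ s, ∃ c : h → 𝓞 K, (∀ i (φ : K →+* ℂ), ‖φ (c i : K)‖ ≤ H) ∧ P.coeff s = ∑ i, ξ i * io (c i : K))
    (s₀ : Fin n × κ →₀ ℕ) (hs₀ : P.coeff s₀ ≠ 0)
    (hs : ‖MvPolynomial.aeval (fun x : Fin n × κ => v x.1 (t x.1) x.2) P‖ ≤ δ * ‖P.coeff s₀‖) :
    RelK K io ξ (fun e : Fin n → κ → Fin (d + 1) => mgR v t e) H δ := by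
  classical
  choose c hc1 hc2 using hP
  obtain ⟨z₀, hz₀⟩ := exists_sV' P hd s₀ (MvPolynomial.mem_support_iff.2 hs₀)
  refine ⟨fun e => c (sV fun x : Fin n × κ => e x.1 x.2), fun l s φ => hc1 _ _ _, fun j i => z₀ (j, i), ?_, ?_⟩
  · rw [← hc2]
    have : (fun x : Fin n × κ => z₀ (x.1, x.2)) = z₀ := by
      funext x
      rfl
    rw [this, hz₀]
    exact hs₀
  · have h1 : (fun x : Fin n × κ => z₀ (x.1, x.2)) = z₀ := by
      funext x
      rfl
    rw [← hc2, h1, hz₀]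
    refine le_trans (le_of_eq ?_) hs
    congr 1
    rw [eval_eq_box _ P hd, ← (Equiv.curry (Fin n) κ (Fin (d + 1))).sum_comp]
    refine Finset.sum_congr rfl fun z _ => ?_
    rw [← hc2]
    congr 1
    rw [Fintype.prod_prod_type]
    rfl

/-- the functions `z i` and `exp (z i)` -/
noncomputable def ze {n : ℕ} (z : Fin n → ℂ → ℂ) : Fin n ⊕ Fin n → ℂ → ℂ :=
  Sum.elim z fun i x => Complex.exp (z i x)

/-- functions algebraically independent over the field of rational functions -/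
def FunInd {X : Type} (U : Set ℂ) (f : X → ℂ → ℂ) : Prop :=
  ∀ P : MvPolynomial (Option X) ℂ, (∀ t ∈ U, MvPolynomial.eval (fun o : Option X => o.elim t fun x => f x t) P = 0) →
    P = 0

theorem locInd_of_funInd {X : Type} {U : Set ℂ} (hU : IsPreconnected U) {f : X → ℂ → ℂ}
    (hf : ∀ i, AnalyticOnNhd ℂ (f i) U) (hind : FunInd U f) (t₀ : ℂ) (ht₀ : t₀ ∈ U) : LocInd f t₀ := by
  intro P hP
  apply hind
  have h2 : AnalyticOnNhd ℂ (fun t => evF f t (MvPolynomial.rename id (MvPolynomial.optionEquivRight ℂ X P))) U :=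
    evF_an hf _
  have hev : ∀ t, evF f t (MvPolynomial.rename id (MvPolynomial.optionEquivRight ℂ X P)) =
      MvPolynomial.eval (fun o : Option X => o.elim t fun y => f y t) P := fun t => ev_option id P t
  intro t ht
  rw [← hev]
  refine h2.eqOn_zero_of_preconnected_of_eventuallyEq_zero hU ht₀ ?_ ht
  filter_upwards [hP] with t ht
  rw [hev]
  exact ht

theorem oneV_of_funInd {X : Type} [Fintype X] [DecidableEq X] {U : Set ℂ} (hU : IsPreconnected U) {f : X → ℂ → ℂ}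
    (hf : ∀ i, AnalyticOnNhd ℂ (f i) U) (hind : FunInd U f) (L : Set ℂ) (hL : IsCompact L) (hLU : L ⊆ U) (g : ℕ) :
    OneV g (fun R T => {t | t ∈ L ∧ Pt R T t}) (fun t i => f i t) :=
  oneV_of g f L hL (fun i t ht => hf i t (hLU ht)) fun t ht => locInd_of_funInd hU hf hind t (hLU ht)

theorem ze_an {n : ℕ} {U : Set ℂ} {z : Fin n → ℂ → ℂ} (hz : ∀ i, AnalyticOnNhd ℂ (z i) U) (i : Fin n ⊕ Fin n) :
    AnalyticOnNhd ℂ (ze z i) U := by
  rcases i with i | i
  · exact hz i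
  · exact fun x hx => (hz i x hx).cexp

/-- **Ax's theorem** -/
theorem exists_ind {n : ℕ} {U : Set ℂ} (hU : IsPreconnected U) (hUo : IsOpen U) (hne : U.Nonempty)
    {z : Fin n → ℂ → ℂ} (hz : ∀ i, AnalyticOnNhd ℂ (z i) U)
    (hq : ∀ q : Fin n → ℚ, (∃ c : ℂ, ∀ x ∈ U, ∑ i, (q i : ℂ) * z i x = c) → q = 0) :
    ∃ I : Fin n → Fin n ⊕ Fin n, Function.Injective I ∧ FunInd U (fun i t => ze z (I i) t) := by
  classical
  have hfa := fun i => ze_an hz i
  obtain ⟨L, _, _, _, F, hF, -⟩ := exists_field hU hUo hne hfa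
  obtain ⟨I, hI, hind⟩ : ∃ I : Fin n → Fin n ⊕ Fin n, Function.Injective I ∧
      AlgebraicIndependent (Polynomial ℂ) (F ∘ I) := by
    rcases Nat.eq_zero_or_pos n with rfl | hn
    · refine ⟨fun i => i.elim0, fun i => i.elim0, ?_⟩
      exact algebraicIndependent_empty_type_iff.2 (FaithfulSMul.algebraMap_injective (Polynomial ℂ) L)
    · obtain ⟨I, hI, hIn⟩ := fun_ax hn hU hUo hne hz hq F hF
      have hcard : Fintype.card (Fin n) ≤ Fintype.card I := by
        rw [Fintype.card_fin, ← Nat.card_eq_fintype_card, Nat.card_coe_set_eq]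
        exact hIn
      obtain ⟨e⟩ := Function.Embedding.nonempty_of_card_le hcard
      refine ⟨fun i => (e i : Fin n ⊕ Fin n), fun i j hij => e.injective (Subtype.ext hij), ?_⟩
      exact AlgebraicIndependent.comp (x := fun j : I => F j) hI e e.injective
  refine ⟨I, hI, fun P hP => ?_⟩
  obtain ⟨t, ht⟩ := hne
  refine locInd_of hU hfa F hF I hind t ht P ?_
  filter_upwards [hUo.mem_nhds ht] with s hs
  exact hP s hs

/-- exceptional tuples of points on curves -/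
def ExcJ {h : Type} [Fintype h] {n : ℕ} (N d : ℕ) (v : ℕ → ℂ → Fin n → ℂ) (L : ℕ → Set ℂ) (K : Type) [Field K]
    [NumberField K] (io : K →+* ℂ) (ξ : h → ℂ) (A B T : ℝ) : Set (Fin N → K) :=
  {t | (∀ j : Fin N, HtLe K T (t j) ∧ io (t j) ∈ L j) ∧ ∃ P : MvPolynomial (Fin N × Fin n) ℂ,
    (∀ x, P.degreeOf x ≤ d) ∧
    (∀ s, ∃ c : h → 𝓞 K, (∀ i (φ : K →+* ℂ), ‖φ (c i : K)‖ ≤ T ^ A) ∧ P.coeff s = ∑ i, ξ i * io (c i : K)) ∧
    ∃ s₀, P.coeff s₀ ≠ 0 ∧ ‖MvPolynomial.aeval (fun x : Fin N × Fin n => v x.1 (io (t x.1)) x.2) P‖ ≤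
      T ^ (-B) * ‖P.coeff s₀‖}

/-- the number of points -/
noncomputable def NumJ (L : Set ℂ) (K : Type) [Field K] [NumberField K] (io : K →+* ℂ) (T : ℝ) : ℝ :=
  ({x : K | HtLe K T x ∧ io x ∈ L}.ncard : ℝ)

/-- **all complexities at once** -/
theorem main {n : ℕ} {U : ℕ → Set ℂ} (hU : ∀ j, IsPreconnected (U j)) {f : ℕ → Fin n → ℂ → ℂ}
    (hf : ∀ j i, AnalyticOnNhd ℂ (f j i) (U j)) (hind : ∀ j, FunInd (U j) (f j)) (β : ℝ → ℝ)
    (hβ : Tendsto β atTop atTop) : ∃ (ω : ℝ → ℕ) (T₀ : ℝ), Tendsto ω atTop atTop ∧ Monotone ω ∧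
        ∀ T, T₀ ≤ T → 0 < ω T ∧ ∀ N ≤ ω T, ∀ (K : Type) [Field K] [NumberField K], Module.finrank ℚ K ≤ ω T →
          ∀ (io : K →+* ℂ) (ξ : Fin (ω T) → ℂ),
            (ExcJ N (ω T) (fun j t i => f j i t) (fun j => Core (U j) (ω T)) K io ξ (ω T) (β T) T).Finite ∧
            ((ExcJ N (ω T) (fun j t i => f j i t) (fun j => Core (U j) (ω T)) K io ξ (ω T) (β T)
              T).ncard : ℝ) ≤ T ^ ((ω T : ℝ)⁻¹) *
                ∑ j : Fin N, ∏ i : Fin N, (if i = j then (1 : ℝ) else NumJ (Core (U i) (ω T)) K io T) := by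
  classical
  let S : ℕ → ℝ → Prop := fun k T => ∀ N ≤ k, ∀ (K : Type) [Field K] [NumberField K], Module.finrank ℚ K ≤ k →
    ∀ (io : K →+* ℂ) (ξ : Fin k → ℂ),
      (ExcJ N k (fun j t i => f j i t) (fun j => Core (U j) k) K io ξ k (β T) T).Finite ∧
      ((ExcJ N k (fun j t i => f j i t) (fun j => Core (U j) k) K io ξ k (β T) T).ncard : ℝ) ≤
        T ^ ((k : ℝ)⁻¹) * ∑ j : Fin N, ∏ i : Fin N, (if i = j then (1 : ℝ) else NumJ (Core (U i) k) K io T)
  refine exists_omega S fun k => ?_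
  rw [← Filter.eventually_atTop (p := S (k + 1))]
  have hk : (0 : ℝ) < ((k + 1 : ℕ) : ℝ)⁻¹ / 2 := by positivity
  have H := fun N : ℕ => nfJ (k + 1) N (κ := Fin n) (fun j t i => f j i t)
    (fun j => Core (U j) (k + 1)) (fun g j => oneV_of_funInd (hU j) (hf j) (hind j) _ (core_compact _ _)
      (core_sub _ (Nat.succ_pos k)) g)
    (Fin (k + 1)) (k + 1) ((k + 1 : ℕ) : ℝ) _ hk
  choose B C T₀ hC hT₀ H using H
  have h1 : ∀ᶠ T : ℝ in atTop, ∀ N ∈ range (k + 2), T₀ N ≤ T ∧ B N ≤ β T ∧ C N ≤ T ^ (((k + 1 : ℕ) : ℝ)⁻¹ / 2) := by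
    rw [Filter.eventually_all_finset]
    intro N _
    exact (eventually_ge_atTop _).and
      ((hβ.eventually_ge_atTop _).and ((tendsto_rpow_atTop hk).eventually_ge_atTop _))
  filter_upwards [h1] with T hT N hN K _ _ hK io ξ
  obtain ⟨hT1, hT2, hT3⟩ := hT N (Finset.mem_range.2 (by omega))
  have hTge : 2 ≤ T := (hT₀ N).trans hT1
  have hTp : 0 < T := by linarith
  obtain ⟨h2, h3⟩ := H N K hK io ξ T hT1
    (ExcJ N (k + 1) (fun j t i => f j i t) (fun j => Core (U j) (k + 1)) K io ξ ((k + 1 : ℕ) : ℝ) (β T) T)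
    (by
      rintro t ⟨ht, P, hPd, hPc, s₀, hs₀, hs⟩
      refine ⟨ht, relK_of_polyJ K io ξ (fun (j : Fin N) t i => f j i t) (fun j => io (t j)) _ _ P hPd hPc
        s₀ hs₀ (hs.trans ?_)⟩
      refine mul_le_mul_of_nonneg_right ?_ (norm_nonneg _)
      exact Real.rpow_le_rpow_of_exponent_le (by linarith) (neg_le_neg hT2))
  refine ⟨h2, h3.trans ?_⟩
  have h4 : 0 ≤ ∑ j : Fin N, ∏ i : Fin N, (if i = j then (1 : ℝ) else NumJ (Core (U i) (k + 1)) K io T) := by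
    refine Finset.sum_nonneg fun j _ => Finset.prod_nonneg fun i _ => ?_
    split_ifs
    · exact zero_le_one
    · exact Nat.cast_nonneg _
  refine mul_le_mul_of_nonneg_right ?_ h4
  calc C N * T ^ (((k + 1 : ℕ) : ℝ)⁻¹ / 2) ≤ T ^ (((k + 1 : ℕ) : ℝ)⁻¹ / 2) * T ^ (((k + 1 : ℕ) : ℝ)⁻¹ / 2) :=
        mul_le_mul_of_nonneg_right hT3 (by positivity)
    _ = T ^ (((k + 1 : ℕ) : ℝ)⁻¹) := by
        rw [← Real.rpow_add hTp]
        congr 1
        ring

end Pool.Agent.Y562.SX
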